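import Pool.Agent.K4H99.AC.Check

/-!
# An upper bound for the autocorrelation constant `C_{1a}`

An explicit step function with 8192 steps on `[-1/4, 1/4]` (its heights are the digits of the number
`Pool.Agent.K4H99.AC.packed` in base `2 ^ 66`) gives `C_{1a} ≤ 1.502844 < 1.5028628587`.
-/

set_option autoImplicit false

open MeasureTheory Set

namespace Pool.Agent.Results.MP_0bd6b6_an.UpperBound

/-- `(f * f)(t)` -/
noncomputable def conv (f : ℝ → ℝ) (t : ℝ) : ℝ := ∫ y, f y * f (t - y)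

/-- The inequality `sup_{|t| ≤ 1/2} (f * f)(t) ≥ C (∫_{[-1/4, 1/4]} f) ^ 2` holds for every
nonnegative square-integrable `f : ℝ → ℝ`. -/
def IsAdmissible (C : ℝ) : Prop :=
  ∀ f : ℝ → ℝ, (∀ x, 0 ≤ f x) → MemLp f 2 volume →
    C * (∫ x in Icc (-(1 / 4) : ℝ) (1 / 4), f x) ^ 2 ≤
      ⨆ t : Icc (-(1 / 2) : ℝ) (1 / 2), conv f t

/-- the constant `C_{1a}`: the supremum of the admissible `C` -/
noncomputable def C1a : ℝ := sSup {C : ℝ | IsAdmissible C}

theorem conv_nonneg {f : ℝ → ℝ} (h0 : ∀ x, 0 ≤ f x) (t : ℝ) : 0 ≤ conv f t :=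
  integral_nonneg fun y => mul_nonneg (h0 _) (h0 _)

theorem zero_admissible : IsAdmissible 0 := by
  intro f h0 _
  rw [zero_mul]
  exact Real.iSup_nonneg fun t => conv_nonneg h0 t

theorem conv_le {f : ℝ → ℝ} (hf : MemLp f 2 volume) (t : ℝ) :
    Integrable (fun y => f y * f (t - y)) ∧ conv f t ≤ ∫ y, f y ^ 2 := by
  have h1 : Integrable (fun y => f y ^ 2) := hf.integrable_sq
  have hm : MeasurePreserving (fun y : ℝ => t - y) volume volume :=
    Measure.measurePreserving_sub_left volume t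
  have hft : MemLp (fun y => f (t - y)) 2 volume := hf.comp_measurePreserving hm
  have h2 : Integrable (fun y => f (t - y) ^ 2) := hft.integrable_sq
  have h3 : Integrable (fun y => f y * f (t - y)) := hf.integrable_mul hft
  have h4 : ∫ y, f (t - y) ^ 2 = ∫ y, f y ^ 2 :=
    integral_sub_left_eq_self (fun y => f y ^ 2) volume t
  refine ⟨h3, ?_⟩
  have h5 : ∫ y, f y * f (t - y) ≤ ∫ y, (1 / 2) * (f y ^ 2 + f (t - y) ^ 2) := by
    apply integral_mono h3 ((h1.add h2).const_mul _)
    intro y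
    simp only [Pi.add_apply]
    nlinarith [sq_nonneg (f y - f (t - y))]
  rw [integral_const_mul, integral_add h1 h2, h4] at h5
  unfold conv
  linarith

/-- **Main theorem.** Every integral `(f * f)(t)` exists and the values are bounded; the set of the
admissible constants is nonempty and bounded above by `1.502844`, and its supremum `C_{1a}`
satisfies `C_{1a} ≤ 1.502844 < 1.5028628587`. -/
theorem result :
    (∀ f : ℝ → ℝ, MemLp f 2 volume → (∀ t, Integrable (fun y => f y * f (t - y))) ∧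
      BddAbove (range (conv f))) ∧
    IsAdmissible 0 ∧ (∀ C : ℝ, IsAdmissible C → C ≤ 1.502844) ∧
    C1a ≤ 1.502844 ∧ C1a < 1.5028628587 := by
  have h1 : ∀ C : ℝ, IsAdmissible C → C ≤ 1.502844 := fun C hC =>
    Pool.Agent.K4H99.AC.bound8192 C hC
  have h2 : C1a ≤ 1.502844 := csSup_le ⟨0, zero_admissible⟩ h1
  refine ⟨fun f hf => ⟨fun t => (conv_le hf t).1, ⟨∫ y, f y ^ 2, ?_⟩⟩, zero_admissible, h1, h2,
    h2.trans_lt (by norm_num)⟩
  rintro _ ⟨t, rfl⟩
  exact (conv_le hf t).2

end Pool.Agent.Results.MP_0bd6b6_an.UpperBound
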